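import Pool.Agent.Y45.PV.Asm
import Pool.Agent.Y45.PV.Star
import Pool.Agent.Y45.MON.Main
import Pool.Agent.Y572.PV.Max
import Pool.Agent.Y38.PV.Ab
import Pool.Agent.Y38.PV.Pi
import Pool.Agent.Y907.PV.Law

/-!
# MP_6f5fa7_al (helper45): a primitive variety of groups which is not locally finite (Q2)

The starting point is the limit theorem of project MON (`Pool/Agent/Y*/MON/`), the rest is project
PV (`Pool/Agent/Y*/PV/`).
-/

set_option autoImplicit false

namespace Pool.Agent.Results.MP_6f5fa7_al.PrimitiveVariety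

universe u

/-- the group `G` satisfies all identities `w = 1`, `w ∈ W` (words are elements of the free group
on countably many letters) -/
def SatIds (W : Set (FreeGroup ℕ)) (G : Type u) [Group G] : Prop :=
  ∀ w ∈ W, ∀ f : ℕ → G, FreeGroup.lift f w = 1

/-- the group `G` satisfies all quasi-identities `u₁ = 1 ∧ … ∧ uₖ = 1 → u = 1` of the set `Q`; a
quasi-identity is the pair of the list `[u₁, …, uₖ]` of its premises and its conclusion `u` -/
def SatQuasi (Q : Set (List (FreeGroup ℕ) × FreeGroup ℕ)) (G : Type u) [Group G] : Prop :=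
  ∀ s ∈ Q, ∀ f : ℕ → G, (∀ w ∈ s.1, FreeGroup.lift f w = 1) → FreeGroup.lift f s.2 = 1

/-- the variety of groups defined by the identities `W` is primitive: each quasivariety (defined by
a set `Q` of quasi-identities) contained in it is a variety (defined by a set `W'` of identities) -/
def IsPrimitive (W : Set (FreeGroup ℕ)) : Prop :=
  ∀ Q : Set (List (FreeGroup ℕ) × FreeGroup ℕ),
    (∀ (G : Type u) [Group G], SatQuasi Q G → SatIds W G) →
    ∃ W' : Set (FreeGroup ℕ), ∀ (G : Type u) [Group G], SatQuasi Q G ↔ SatIds W' G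

/-- there is a primitive variety of groups (of finite exponent) which contains an infinite finitely
generated group -/
theorem result : ∃ (W : Set (FreeGroup ℕ)) (n : ℕ), 0 < n ∧
    (∀ (G : Type u) [Group G], SatIds W G → ∀ g : G, g ^ n = 1) ∧
    IsPrimitive.{u} W ∧
    ∃ (G : Type u) (_ : Group G), SatIds W G ∧ Group.FG G ∧ Infinite G :=
  Pool.Agent.Y45.PV.asm.{u} (Pool.Agent.Y45.PV.star Pool.Agent.Y45.MON.aMon)
    Pool.Agent.Y572.PV.t_PV2 Pool.Agent.Y572.PV.t_PV3 Pool.Agent.Y38.PV.Pi.piStmt
    (Pool.Agent.Y907.PV.law Pool.Agent.Y38.PV.abStmt)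
    (Pool.Agent.Y38.PV.abQStmt Pool.Agent.Y38.PV.abStmt)

end Pool.Agent.Results.MP_6f5fa7_al.PrimitiveVariety
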